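import Pool.Agent.R314.SX.Exc2

/-!
# Generic representations: the violations of the Ramanujan conjecture seen by the traces are bounded, at every scale, by
the small traces

Let `Π` be an isobaric sum of unitary cuspidal representations of general linear groups over `ℚ`, a representation of
`GL_n` with Satake parameters `α_{1,p}, ..., α_{n,p}`, `p ∉ S` (for instance a cuspidal representation, or the lift of
a globally generic cuspidal representation of a quasi-split classical group over `ℚ`), and let `d` be the order of the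
pole of `L(s, Π × Π~)` at `s = 1`, so that `|α_{1,p} + ... + α_{n,p}|²` has the mean value `d` over the primes. Let
`N(X)` be the number of the primes `p` with `|α_{1,p}^k + ... + α_{n,p}^k|² < d` for some `k ≥ 1` with `p^k ≤ X`. We show
for every `ε > 0` and **all** large `X`:

  `∑_{p^k ≤ X} max(0, |α_{1,p}^k + ... + α_{n,p}^k|² - d)`
    `≤ X^ε ∑_{p^k ≤ X^{1+ε}} max(0, d - |α_{1,p}^k + ... + α_{n,p}^k|²)`

and the left hand side is at most `X^ε N(X^{1+ε})`. If `Π_p` is tempered, then `|α_{1,p} + ... + α_{n,p}| ≤ n`. So the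
primes `p ≤ X` at which the trace is greater than `n` (and shows that `Π_p` is not tempered), or only greater than a
constant `B > √d`, are never polynomially more numerous than the primes with small traces.

For `GL_3` (over any number field), where a trace of absolute value `< 1` shows that `Π_p` is tempered, this was
shown in `TemperedMajority` (`MP_8410ab_nt`), for the tempered places instead of `N`. It follows from
`IsobaricEveryScale` that `N(X) ≥ X^c` for all large `X` and `c < 1/2`; the present result has no such loss: it compares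
the two sides of the mean value at the scale `X`, whatever their order of magnitude is (a priori any power of `X` between
`X^{1/2}` and `X` is possible).

The proof: `log (L(s, Π × Π~) / ζ(s)^d) = ∑ d(q) q^{-s}`, `d(p^k) = (|∑_i α_{i,p}^k|² - d) / k`. Let `b` be the least
upper bound of the real parts of the zeros and poles of this quotient; `b ≥ 1/2` by the functional equation. By the
explicit formula with a Gaussian weight, at a real point slightly to the right of `b`, the positive and the negative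
`d(q)` with `log q` near `Y` compensate each other up to `exp((b + ε) Y)`; to the left of `b` it shows that
the negative ones contribute at least `exp((b - ε) Y)`, as there are no real poles in `s ≥ 1/2`.
-/

set_option autoImplicit false

namespace Pool.Agent.Results.MP_08cfa9_nt.ExcessEveryScale

open Filter Topology
open Pool.Agent.W189.TP (PS)
open Pool.Agent.R314.SX (IsobaricRep)

open scoped Classical in
/-- **The excess of the traces is bounded by the number of the small traces, at every scale.** -/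
theorem result {S : Finset Nat.Primes} {n d : ℕ} (hdn : d < n ^ 2) {α : PS S → Fin n → ℂ}
    {β : Nat.Primes → Fin (n ^ 2) → ℂ} {κ : Fin (n ^ 2 - d) → ℂ} (h : IsobaricRep S d α β κ) {ε : ℝ} (hε : 0 < ε) :
    (∀ᶠ X : ℝ in atTop, (∑' x : PS S × ℕ, if ((x.1.1 : ℕ) : ℝ) ^ (x.2 + 1) ≤ X then
        max 0 (‖∑ i, α x.1 i ^ (x.2 + 1)‖ ^ 2 - d) else 0) ≤
      X ^ ε * ∑' x : PS S × ℕ, if ((x.1.1 : ℕ) : ℝ) ^ (x.2 + 1) ≤ X ^ (1 + ε) then
        max 0 (d - ‖∑ i, α x.1 i ^ (x.2 + 1)‖ ^ 2) else 0) ∧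
    (∀ᶠ X : ℝ in atTop, (∑' x : PS S × ℕ, if ((x.1.1 : ℕ) : ℝ) ^ (x.2 + 1) ≤ X then
        max 0 (‖∑ i, α x.1 i ^ (x.2 + 1)‖ ^ 2 - d) else 0) ≤
      X ^ ε * (({p : PS S | ∃ k : ℕ, ((p.1 : ℕ) : ℝ) ^ (k + 1) ≤ X ^ (1 + ε) ∧
        ‖∑ i, α p i ^ (k + 1)‖ ^ 2 < d}.ncard : ℕ) : ℝ)) ∧
    (∀ B : ℝ, 0 ≤ B → d < B ^ 2 → ∀ᶠ X : ℝ in atTop,
      (B ^ 2 - d) * (({p : PS S | ((p.1 : ℕ) : ℝ) ≤ X ∧ B ≤ ‖∑ i, α p i‖}.ncard : ℕ) : ℝ) ≤
      X ^ ε * (({p : PS S | ∃ k : ℕ, ((p.1 : ℕ) : ℝ) ^ (k + 1) ≤ X ^ (1 + ε) ∧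
        ‖∑ i, α p i ^ (k + 1)‖ ^ 2 < d}.ncard : ℕ) : ℝ)) ∧
    ∀ p : PS S, (∀ i, ‖α p i‖ = 1) → ∀ k : ℕ, ‖∑ i, α p i ^ (k + 1)‖ ≤ n := by
  obtain ⟨h1, h2⟩ := Pool.Agent.R314.SX.exc_final hdn h hε
  refine ⟨h1, h2, fun B hB0 hB => ?_, fun p hp k => ?_⟩
  · filter_upwards [h2] with X hX
    refine le_trans ?_ hX
    have hfin : {p : PS S | ((p.1 : ℕ) : ℝ) ≤ X ∧ B ≤ ‖∑ i, α p i‖}.Finite := by
      refine ((Pool.Agent.R314.SX.fin_le (S := S) X).image Prod.fst).subset fun p hp => ?_
      refine ⟨(p, 0), ?_, rfl⟩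
      show ((p.1 : ℕ) : ℝ) ^ (0 + 1) ≤ X
      rw [zero_add, pow_one]
      exact hp.1
    set f : PS S × ℕ → ℝ := fun x => if ((x.1.1 : ℕ) : ℝ) ^ (x.2 + 1) ≤ X then
        max 0 (‖∑ i, α x.1 i ^ (x.2 + 1)‖ ^ 2 - d) else 0 with hf
    have hf0 : ∀ x, 0 ≤ f x := fun x => by
      rw [hf]
      simp only
      split_ifs
      · exact le_max_left _ _
      · exact le_rfl
    have hfs : Summable f := Pool.Agent.R314.SX.summ_win X
    have hinj : Function.Injective (fun p : PS S => ((p, 0) : PS S × ℕ)) := fun a b hab => (Prod.mk.inj hab).1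
    have h3 := hfs.sum_le_tsum (hfin.toFinset.map ⟨_, hinj⟩) (fun x _ => hf0 x)
    refine le_trans ?_ h3
    rw [Finset.sum_map, Set.ncard_eq_toFinset_card _ hfin]
    have h4 : ∀ p ∈ hfin.toFinset, B ^ 2 - d ≤ f (p, 0) := by
      intro p hp
      rw [Set.Finite.mem_toFinset] at hp
      have h5 : f (p, 0) = max 0 (‖∑ i, α p i‖ ^ 2 - d) := by
        rw [hf]
        simp only [zero_add, pow_one]
        rw [if_pos hp.1]
      rw [h5]
      refine le_trans ?_ (le_max_right _ _)
      have h6 : B ^ 2 ≤ ‖∑ i, α p i‖ ^ 2 := pow_le_pow_left₀ hB0 hp.2 2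
      linarith
    have h5 := Finset.sum_le_sum h4
    rw [Finset.sum_const, nsmul_eq_mul] at h5
    calc (B ^ 2 - d) * ((hfin.toFinset.card : ℕ) : ℝ) = ((hfin.toFinset.card : ℕ) : ℝ) * (B ^ 2 - d) := mul_comm _ _
      _ ≤ _ := h5
  · calc ‖∑ i, α p i ^ (k + 1)‖ ≤ ∑ i : Fin n, ‖α p i ^ (k + 1)‖ := norm_sum_le _ _
      _ = ∑ i : Fin n, (1 : ℝ) := Finset.sum_congr rfl fun i _ => by rw [norm_pow, hp i, one_pow]
      _ = n := by simp

end Pool.Agent.Results.MP_08cfa9_nt.ExcessEveryScale
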